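import Pool.Agent.H71.O2.K1
import Pool.Agent.H4.FD.Conj

set_option autoImplicit false

/-!
A finite simple automorphic loop of odd order has no element `x ≠ e` with `x⁻¹ = x` (helper4's proof).
-/

namespace ALoop

open Equiv

variable {Q : Type*}

/-- a permutation of order a power of two acting on a set of odd size has an odd number of fixed points -/
theorem odd_fix [Finite Q] (F : Set Q) (b : Perm Q) (k : ℕ) (hb : b ^ 2 ^ k = 1)
    (hF : ∀ f ∈ F, b f ∈ F) (hodd : Odd F.ncard) : Odd {f | f ∈ F ∧ b f = f}.ncard := by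
  classical
  haveI : Fintype Q := Fintype.ofFinite Q
  let f : Function.End F := fun x => ⟨b x, hF x x.2⟩
  have hpow : ∀ (n : ℕ) (x : F), (((f ^ n) x : F) : Q) = (b ^ n) x := by
    intro n
    induction n with
    | zero => intro x; rfl
    | succ n ih =>
      intro x
      rw [pow_succ', pow_succ', Perm.mul_apply, ← ih x]
      rfl
  have hf : f ^ 2 ^ k = 1 := by
    funext x
    apply Subtype.ext
    rw [hpow, hb]
    rfl
  haveI : Fact (Nat.Prime 2) := ⟨Nat.prime_two⟩
  have h1 := Equiv.Perm.card_fixedPoints_modEq (p := 2) hf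
  have h2 : Fintype.card F = F.ncard := by
    rw [← Nat.card_eq_fintype_card, Nat.card_coe_set_eq]
  have h3 : Fintype.card f.fixedPoints = {f | f ∈ F ∧ b f = f}.ncard := by
    rw [← Nat.card_eq_fintype_card, ← Nat.card_coe_set_eq]
    refine Nat.card_congr
      ⟨fun x => ⟨x.1.1, x.1.2, congrArg Subtype.val x.2⟩,
        fun x => ⟨⟨x.1, x.2.1⟩, Subtype.ext x.2.2⟩, fun x => rfl, fun x => rfl⟩
  rw [h2, h3] at h1
  rw [Nat.odd_iff] at hodd ⊢
  have h4 : F.ncard % 2 = {f | f ∈ F ∧ b f = f}.ncard % 2 := h1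
  rw [← h4]; exact hodd

variable {G : Subgroup (Perm Q)} {L : Q → Perm Q} {J : Perm Q} {e : Q}

/-- in a finite simple automorphic loop of odd order only `e` is its own inverse -/
theorem AL.fix_odd [Finite Q] (h : AL G L J e) (hodd : Odd (Nat.card Q)) {x : Q} (hx : J x = x) :
    x = e := by
  classical
  have h0 := h.al0
  have hJJ := h.JJ1
  obtain ⟨s, k, hk, hsk⟩ := Nat.exists_eq_two_pow_mul_odd (n := orderOf (L x)) (orderOf_pos (L x)).ne'
  have hR : J * L x * J = Rt L J x := by rw [h0.JLJ, hx]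
  have hLR := h0.flex x
  -- `L x ^ k` maps `e` to `x`
  have hxx : L x x = e := by
    have := h.LJ x
    rwa [hx] at this
  have hodd1 : ∀ j : ℕ, (L x ^ (2 * j + 1)) e = x := by
    intro j
    induction j with
    | zero => simp [h.Le]
    | succ j ih =>
      have h1 : 2 * (j + 1) + 1 = 2 + (2 * j + 1) := by ring
      rw [h1, pow_add, Perm.mul_apply, ih, pow_two, Perm.mul_apply, hxx, h.Le]
  obtain ⟨t, ht⟩ : ∃ t, t = L x ^ k := ⟨_, rfl⟩
  obtain ⟨t', ht'⟩ : ∃ t', t' = Rt L J x ^ k := ⟨_, rfl⟩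
  have hte : t e = x := by
    obtain ⟨j, hj⟩ := hk
    rw [ht, hj]; exact hodd1 j
  have hto : t ^ 2 ^ s = 1 := by
    rw [ht, ← pow_mul, mul_comm k, ← hsk, pow_orderOf_eq_one]
  have hJt : J * t * J = t' := by
    rw [ht, ht', ← hR]
    have h1 := conj_pow (i := k) (a := J) (b := L x)
    rw [h.Jinv] at h1
    exact h1.symm
  have hto' : t' ^ 2 ^ s = 1 := by
    have h1 := conj_pow (i := 2 ^ s) (a := J) (b := t)
    rw [h.Jinv, hJt, hto] at h1
    rw [h1, mul_one, hJJ]
  have htt : t * t' = t' * t := by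
    rw [ht, ht']
    exact ((show Commute (L x) (Rt L J x) from hLR).pow_pow k k).eq
  -- the common fixed points
  have ho0 : Odd (Set.univ : Set Q).ncard := by rw [Set.ncard_univ]; exact hodd
  have ho1 := odd_fix Set.univ t s hto (fun _ _ => Set.mem_univ _) ho0
  have ho2 := odd_fix _ t' s hto' (by
    rintro f ⟨-, hf⟩
    refine ⟨Set.mem_univ _, ?_⟩
    rw [← Perm.mul_apply, htt, Perm.mul_apply, hf]) ho1
  have ho3 := odd_fix _ J 1 (by rw [pow_one, pow_two]; exact hJJ) (by
    rintro f ⟨⟨-, hf⟩, hf'⟩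
    have e1 : t * J = J * t' := by
      rw [← hJt]
      calc t * J = 1 * t * J := by group
        _ = (J * J) * t * J := by rw [hJJ]
        _ = J * (J * t * J) := by group
    have e2 : t' * J = J * t := by
      rw [← hJt]
      calc J * t * J * J = J * t * (J * J) := by group
        _ = J * t := by rw [hJJ]; group
    refine ⟨⟨Set.mem_univ _, ?_⟩, ?_⟩
    · rw [← Perm.mul_apply, e1, Perm.mul_apply, hf']
    · rw [← Perm.mul_apply, e2, Perm.mul_apply, hf]) ho2
  obtain ⟨y, ⟨⟨-, hty⟩, hty'⟩, hJy⟩ : ({f | f ∈ {f | f ∈ {f | f ∈ (Set.univ : Set Q) ∧ t f = f} ∧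
      t' f = f} ∧ J f = f} : Set Q).Nonempty := by
    apply Set.nonempty_of_ncard_ne_zero
    intro h1
    rw [h1] at ho3
    exact absurd ho3 (by decide)
  have htG : t ∈ G := by rw [ht]; exact G.pow_mem (h.memL x) k
  -- `D y` commutes with `J` and `t`
  have hDy : D L J y * J = J * D L J y := by
    have h1 := h.D_J y
    rw [hJy] at h1
    calc D L J y * J = (J * D L J y * J) * J := by rw [h1]
      _ = J * D L J y * (J * J) := by group
      _ = J * D L J y := by rw [hJJ, mul_one]
  have hDt : D L J y * t = t * D L J y := ((h.D_cent htG y).2 hty).symm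
  obtain ⟨g, hg⟩ : ∃ g, g = D L J y * J := ⟨_, rfl⟩
  have hgG : g ∈ G := by
    rw [hg]
    have h1 := h.D_mul_mem y e
    rwa [h.D_e] at h1
  have hge : g e = e := by
    apply h.D_inj
    rw [← h.D_conj hgG, h.D_e, hg, mul_inv_rev, h.Jinv]
    have h2 : (D L J y)⁻¹ = D L J y := inv_eq_of_mul_eq_one_left (h.D_sq y)
    rw [h2]
    calc D L J y * J * J * (J * D L J y) = D L J y * (J * J) * (J * D L J y) := by group
      _ = D L J y * (D L J y * J) := by rw [hJJ, ← hDy]; group
      _ = (D L J y * D L J y) * J := by group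
      _ = J := by rw [h.D_sq, one_mul]
  have hDx : D L J x = t * J * t⁻¹ := by
    have h1 := h.D_conj htG e
    rw [hte, h.D_e] at h1
    exact h1.symm
  have hJDx : J * D L J x * J = D L J x := by rw [h.D_J, hx]
  have hgx : g x = x := by
    apply h.D_inj
    rw [← h.D_conj hgG, hg, mul_inv_rev, h.Jinv]
    have h2 : (D L J y)⁻¹ = D L J y := inv_eq_of_mul_eq_one_left (h.D_sq y)
    rw [h2]
    calc D L J y * J * D L J x * (J * D L J y) = D L J y * (J * D L J x * J) * D L J y := by group
      _ = D L J y * D L J x * D L J y := by rw [hJDx]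
      _ = D L J y * t * J * t⁻¹ * D L J y := by rw [hDx]; group
      _ = t * (D L J y * J) * t⁻¹ * D L J y := by rw [hDt]; group
      _ = t * J * D L J y * t⁻¹ * D L J y := by rw [hDy]; group
      _ = t * J * t⁻¹ * (t * D L J y) * t⁻¹ * D L J y := by group
      _ = t * J * t⁻¹ * (D L J y * D L J y) := by rw [← hDt]; group
      _ = D L J x := by rw [h.D_sq, hDx, mul_one]
  have hDL : D L J y * t * D L J y = t' := by
    have h1 := h0.comR hgG hge hgx
    have h2 : g * t' * g⁻¹ = t' := by
      rw [ht']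
      have h3 : Commute g (Rt L J x) := h1
      have h4 := (h3.pow_right k).eq
      rw [h4]; group
    have h3 : D L J y = g * J := by
      rw [hg, mul_assoc, hJJ, mul_one]
    have h4 : D L J y = J * g⁻¹ := by
      rw [hg, mul_inv_rev, h.Jinv, inv_eq_of_mul_eq_one_left (h.D_sq y), ← mul_assoc, hJJ, one_mul]
    nth_rewrite 1 [h3]
    rw [h4]
    calc g * J * t * (J * g⁻¹) = g * (J * t * J) * g⁻¹ := by group
      _ = t' := by rw [hJt, h2]
  have htt' : t = t' := by
    rw [← hDL, hDt]
    calc t = t * 1 := by group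
      _ = t * (D L J y * D L J y) := by rw [h.D_sq]
      _ = t * D L J y * D L J y := by group
  apply h.D_inj
  rw [h.D_e, hDx]
  have h5 : J * t * J = t := by rw [hJt, ← htt']
  calc t * J * t⁻¹ = (J * t * J) * J * t⁻¹ := by rw [h5]
    _ = J * t * (J * J) * t⁻¹ := by group
    _ = J := by rw [hJJ]; group

end ALoop
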